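import Pool.Agent.TH53.BL11

/-!
# Relative norms as products of conjugates
-/

set_option autoImplicit false

namespace Pool.Agent.V5helper40.RRed

open Polynomial IntermediateField
open Pool.Agent.W237.RK
open Pool.Agent.H58P (Qb ht)
open Pool.Agent.TH53.RP
open Pool.Agent.TH53.BL

/-- the product of the conjugates -/
noncomputable def N (F : GF) (x : Qb) : Qb := ∏ y ∈ (orb_finite F x).toFinset, y

lemma aroots_prod (F : GF) (x : Qb) : ((minpoly F x).aroots Qb).prod = N F x := by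
  classical
  rw [aroots, minpoly_map_eq_oprod, roots_prod]
  · simp only [roots_X_sub_C]
    rw [N, Finset.prod_eq_multiset_prod]
    congr 1
    rw [Multiset.bind_singleton]
  · exact Finset.prod_ne_zero_iff.2 fun y _ => X_sub_C_ne_zero y

lemma N_ne_zero (F : GF) {x : Qb} (hx : x ≠ 0) : N F x ≠ 0 := by
  refine Finset.prod_ne_zero_iff.2 fun y hy => ?_
  rw [Set.Finite.mem_toFinset] at hy
  obtain ⟨σ, -, rfl⟩ := hy
  exact (map_ne_zero σ).mpr hx

lemma orb_image (F : GF) (x : Qb) {σ : Aut} (hσ : Fix F σ) :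
    (orb_finite F x).toFinset.map σ.toEquiv.toEmbedding = (orb_finite F x).toFinset := by
  classical
  refine Finset.eq_of_subset_of_card_le ?_ (le_of_eq (by rw [Finset.card_map]))
  intro z hz
  rw [Finset.mem_map] at hz
  obtain ⟨y, hy, rfl⟩ := hz
  rw [Set.Finite.mem_toFinset] at hy ⊢
  obtain ⟨τ, hτ, rfl⟩ := hy
  exact ⟨σ * τ, fix_mul hσ hτ, rfl⟩

/-- the product of the conjugates is in the field -/
lemma N_mem (F : GF) (x : Qb) : N F x ∈ F := by
  apply mem_of_fix F
  intro σ hσ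
  unfold N
  rw [map_prod]
  conv_rhs => rw [← orb_image F x hσ]
  rw [Finset.prod_map]
  rfl

/-- the relation with the constant coefficient of the minimal polynomial -/
lemma coeff_zero_eq (F : GF) (x : Qb) :
    ((minpoly F x).coeff 0 : Qb) = (-1) ^ (orb_finite F x).toFinset.card * N F x := by
  have h1 := minpoly_map_eq_oprod F x
  have h3 : ((minpoly F x).coeff 0 : Qb) = ((minpoly F x).map (algebraMap F Qb)).coeff 0 := by
    rw [coeff_map]
    rfl
  rw [h3, h1, coeff_zero_prod, N, ← Finset.prod_const, ← Finset.prod_mul_distrib]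
  refine Finset.prod_congr rfl fun y _ => ?_
  simp

lemma tor_neg_one_pow (n : ℕ) : Tor ((-1 : Qb) ^ n) :=
  Tor.pow ⟨2, two_pos, by norm_num⟩ n

/-- the height of a relative norm -/
lemma ht_N_le (F : GF) (x : Qb) : ht (N F x) ≤ ((orb F x).ncard : ℝ) * ht x := by
  classical
  unfold N
  refine (Pool.Agent.H58R.ht_prod_le _ _).trans ?_
  rw [Set.ncard_eq_toFinset_card _ (orb_finite F x), ← nsmul_eq_mul, ← Finset.sum_const]
  refine Finset.sum_le_sum fun y hy => ?_
  rw [Set.Finite.mem_toFinset] at hy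
  obtain ⟨σ, -, rfl⟩ := hy
  rw [Pool.Agent.H58B.ht_conj]

/-- transitivity of the norm, up to powers -/
lemma norm_rel {F₁ F₂ : GF} (h : F₁ ≤ F₂) (hfd : FiniteDimensional F₁ (extendScalars h)) (x : Qb) :
    ∃ a b : ℕ, 0 < a ∧ 0 < b ∧ N F₁ x ^ a = N F₁ (N F₂ x) ^ b := by
  set E : IntermediateField F₁ Qb := extendScalars h with hE
  have hint : IsIntegral E x := (Pool.Agent.H58P.qb_isIntegral x).tower_top
  set L : IntermediateField E Qb := IntermediateField.adjoin E {x} with hL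
  have hfdL : FiniteDimensional E L := IntermediateField.adjoin.finiteDimensional hint
  have hfdK : FiniteDimensional F₁ L := FiniteDimensional.trans F₁ E L
  set g : L := IntermediateField.AdjoinSimple.gen E x with hg
  have hgx : algebraMap L Qb g = x := IntermediateField.AdjoinSimple.algebraMap_gen E x
  have h1 : Algebra.norm F₁ (Algebra.norm E g) = Algebra.norm F₁ g := Algebra.norm_norm
  -- the norm to `E`
  have h2 : algebraMap E Qb (Algebra.norm E g) = N F₂ x := by
    rw [hg, IntermediateField.AdjoinSimple.norm_gen_eq_prod_roots _ (IsAlgClosed.splits _)]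
    exact aroots_prod F₂ x
  have hst : IsScalarTower F₁ L Qb := IsScalarTower.of_algebraMap_eq fun _ => rfl
  have hmp1 : minpoly F₁ g = minpoly F₁ x := by
    conv_rhs => rw [← hgx]
    exact (minpoly.algebraMap_eq (algebraMap L Qb).injective g).symm
  have hmp2 : minpoly F₁ (Algebra.norm E g) = minpoly F₁ (N F₂ x) := by
    rw [← h2]
    exact (minpoly.algebraMap_eq (algebraMap E Qb).injective _).symm
  have h3 : algebraMap F₁ Qb (Algebra.norm F₁ g)
      = N F₁ x ^ Module.finrank F₁⟮g⟯ L := by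
    rw [Algebra.norm_eq_prod_roots (F := Qb) (IsAlgClosed.splits _), hmp1, aroots_prod]
  have h4 : algebraMap F₁ Qb (Algebra.norm F₁ (Algebra.norm E g))
      = N F₁ (N F₂ x) ^ Module.finrank F₁⟮Algebra.norm E g⟯ E := by
    rw [Algebra.norm_eq_prod_roots (F := Qb) (IsAlgClosed.splits _), hmp2, aroots_prod]
  have f1 : FiniteDimensional F₁⟮g⟯ L := FiniteDimensional.right F₁ _ _
  have f2 : FiniteDimensional F₁⟮Algebra.norm E g⟯ E := FiniteDimensional.right F₁ _ _
  exact ⟨_, _, Module.finrank_pos, Module.finrank_pos, by rw [← h3, ← h4, h1]⟩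

/-- finiteness -/
lemma finite_ext {F₁ F₂ : GF} (h : F₁ ≤ F₂) {x : Qb} (hx : F₂ ≤ F₁ ⊔ adjoin ℚ {x}) :
    FiniteDimensional F₁ (extendScalars h) := by
  have hint : IsIntegral F₁ x := (Pool.Agent.H58P.qb_isIntegral x).tower_top
  have hfd : FiniteDimensional F₁ F₁⟮x⟯ := IntermediateField.adjoin.finiteDimensional hint
  have hle : extendScalars h ≤ F₁⟮x⟯ := by
    intro y hy
    have h1 : y ∈ F₁ ⊔ adjoin ℚ {x} := hx hy
    have h2 : F₁ ⊔ adjoin ℚ {x} ≤ (F₁⟮x⟯).restrictScalars ℚ := by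
      apply sup_le
      · intro z hz
        exact (F₁⟮x⟯).algebraMap_mem ⟨z, hz⟩
      · rw [adjoin_le_iff]
        rintro z rfl
        exact mem_adjoin_simple_self F₁ z
    exact h2 h1
  exact FiniteDimensional.of_injective (inclusion hle).toLinearMap (inclusion_injective hle)

lemma DivG.pow {Γ : Subgroup Qbˣ} {x : Qb} (h : DivG Γ x) (m : ℕ) : DivG Γ (x ^ m) := by
  obtain ⟨n, hn, g, hg, h1⟩ := h
  exact ⟨n, hn, g ^ m, pow_mem hg m, by
    rw [← pow_mul, mul_comm, pow_mul, h1, Units.val_pow_eq_pow_val]⟩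

/-- `DivG` of the norms -/
lemma divG_norm {Γ : Subgroup Qbˣ} {F₁ F₂ : GF} (h : F₁ ≤ F₂)
    (hfd : FiniteDimensional F₁ (extendScalars h)) (x : Qb) :
    DivG Γ (N F₁ x) ↔ DivG Γ (N F₁ (N F₂ x)) := by
  obtain ⟨a, b, ha, hb, hab⟩ := norm_rel h hfd x
  constructor
  · intro h1
    have := DivG.pow h1 a
    rw [hab] at this
    exact Pool.Agent.TH53.RP.DivG.of_pow hb this
  · intro h1
    have := DivG.pow h1 b
    rw [← hab] at this
    exact Pool.Agent.TH53.RP.DivG.of_pow ha this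

/-- an automorphism over `F` which fixes `x` fixes `F(x)` -/
lemma fix_adjoin {F : GF} {σ : Aut} (hσ : Fix F σ) {x : Qb} (hx : σ x = x) :
    Fix (F ⊔ adjoin ℚ {x}) σ := by
  apply fix_sup hσ
  intro y hy
  have h1 : adjoin ℚ {x} ≤ IntermediateField.fixedField (Subgroup.zpowers σ) := by
    rw [adjoin_le_iff]
    rintro z rfl
    rw [SetLike.mem_coe, IntermediateField.mem_fixedField_iff]
    intro τ hτ
    obtain ⟨n, rfl⟩ := hτ
    have h2 : ∀ n : ℤ, (σ ^ n) z = z := by
      intro n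
      have h3 : σ ∈ MulAction.stabilizer Aut z := hx
      exact (MulAction.stabilizer Aut z).zpow_mem h3 n
    exact h2 n
  have h2 := h1 hy
  rw [IntermediateField.mem_fixedField_iff] at h2
  exact h2 σ (Subgroup.mem_zpowers σ)

/-- the degrees -/
lemma degree_mul_le {F₀ F' : GF} (h : F₀ ≤ F') {x : Qb} (hx : F' ≤ F₀ ⊔ adjoin ℚ {x}) :
    (orb F' x).ncard * (orb F₀ (N F' x)).ncard ≤ (orb F₀ x).ncard := by
  classical
  set η := N F' x with hη
  have hηF' : η ∈ F' := N_mem F' x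
  -- a choice of automorphisms
  have hch : ∀ y : Qb, ∃ σ : Aut, y ∈ orb F₀ x → Fix F₀ σ ∧ σ x = y := by
    intro y
    by_cases hy : y ∈ orb F₀ x
    · obtain ⟨σ, h1, h2⟩ := hy
      exact ⟨σ, fun _ => ⟨h1, h2⟩⟩
    · exact ⟨1, fun h => absurd h hy⟩
  choose s hs using hch
  have hwell : ∀ σ τ : Aut, Fix F₀ σ → Fix F₀ τ → σ x = τ x → σ η = τ η := by
    intro σ τ h1 h2 h3
    have h4 : (τ⁻¹ * σ) x = x := by
      show τ⁻¹ (σ x) = x
      rw [h3, inv_apply_self]
    have h5 := fix_adjoin (fix_mul (fix_inv h2) h1) h4 η (hx hηF')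
    have h6 : τ⁻¹ (σ η) = η := h5
    rw [← h6, apply_inv_self]
    exact congrArg σ h6
  set S := (orb_finite F₀ x).toFinset with hS
  set T := (orb_finite F₀ η).toFinset with hT
  have hmS : ∀ y, y ∈ S ↔ y ∈ orb F₀ x := fun y => Set.Finite.mem_toFinset _
  have hmT : ∀ y, y ∈ T ↔ y ∈ orb F₀ η := fun y => Set.Finite.mem_toFinset _
  have hcS : (orb F₀ x).ncard = S.card := Set.ncard_eq_toFinset_card _ (orb_finite F₀ x)
  have hcT : (orb F₀ η).ncard = T.card := Set.ncard_eq_toFinset_card _ (orb_finite F₀ η)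
  rw [hcS, hcT]
  refine Finset.mul_card_image_le_card_of_maps_to (f := fun y => s y η) (fun y hy => ?_) _
    (fun z hz => ?_)
  · rw [hmT]
    exact ⟨s y, (hs y ((hmS y).1 hy)).1, rfl⟩
  · rw [hmT] at hz
    obtain ⟨σ, hσ, rfl⟩ := hz
    rw [Set.ncard_eq_toFinset_card _ (orb_finite F' x)]
    rw [← Finset.card_map (σ.toEquiv.toEmbedding)]
    apply Finset.card_le_card
    intro w hw
    rw [Finset.mem_map] at hw
    obtain ⟨y, hy, rfl⟩ := hw
    rw [Set.Finite.mem_toFinset] at hy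
    obtain ⟨τ, hτ, rfl⟩ := hy
    have h1 : Fix F₀ (σ * τ) := fix_mul hσ (fix_mono h hτ)
    have h2 : (σ * τ) x ∈ orb F₀ x := ⟨σ * τ, h1, rfl⟩
    rw [Finset.mem_filter]
    refine ⟨(hmS _).2 h2, ?_⟩
    have h3 := hs ((σ * τ) x) h2
    have h4 := hwell (s ((σ * τ) x)) (σ * τ) h3.1 h1 h3.2
    have h5 : (σ * τ) η = σ η := by
      show σ (τ η) = σ η
      rw [hτ η hηF']
    show s (σ (τ x)) η = σ η
    rw [← h5, ← h4]
    rfl

end Pool.Agent.V5helper40.RRed
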