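import Pool.Agent.V5helper40.RRed.Basic

/-!
# The reduction to primitive numbers
-/

set_option autoImplicit false

namespace Pool.Agent.V5helper40.RRed

open Polynomial IntermediateField
open Pool.Agent.W237.RK
open Pool.Agent.H58P (Qb ht)
open Pool.Agent.H58R (ht_nonneg ht_mul_le ht_inv ht_zpow ht_prod_le)
open Pool.Agent.TH53.RP
open Pool.Agent.TH53.BL

/-- the relative norms to the proper subfields of `F_Γ(x)` are roots of unity -/
def Prim (Γ : Subgroup Qbˣ) (x : Qb) : Prop :=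
  x ∉ divF Γ ∧ ∀ F' : GF, divF Γ ≤ F' → F' ≤ divF Γ ⊔ adjoin ℚ {x} → x ∉ F' → Tor (N F' x)

lemma divG_mem {Γ : Subgroup Qbˣ} {x : Qb} (h : DivG Γ x) : x ∈ divF Γ :=
  subset_adjoin _ _ h

lemma orb_of_mem {F : GF} {x : Qb} (h : x ∈ F) : orb F x = {x} := by
  ext y
  constructor
  · rintro ⟨σ, hσ, rfl⟩
    exact hσ x h
  · rintro rfl
    exact self_mem_orb F _

lemma N_of_mem {F : GF} {x : Qb} (h : x ∈ F) : N F x = x := by
  have h1 : (orb_finite F x).toFinset = {x} := by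
    ext y
    rw [Set.Finite.mem_toFinset, orb_of_mem h, Finset.mem_singleton]
    rfl
  rw [N, h1, Finset.prod_singleton]

lemma N_div {F : GF} {x c : Qb} (hc : c ∈ F) (hc0 : c ≠ 0) :
    N F (x / c) = N F x / c ^ (orb F x).ncard := by
  classical
  have hinj : Function.Injective fun y : Qb => y / c := fun a b h => by
    simpa [div_left_inj' hc0] using h
  have h1 : (orb_finite F (x / c)).toFinset = (orb_finite F x).toFinset.image fun y => y / c := by
    ext y
    rw [Set.Finite.mem_toFinset, Finset.mem_image]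
    constructor
    · rintro ⟨σ, hσ, rfl⟩
      refine ⟨σ x, ?_, ?_⟩
      · rw [Set.Finite.mem_toFinset]
        exact ⟨σ, hσ, rfl⟩
      · rw [map_div₀, hσ c hc]
    · rintro ⟨z, hz, rfl⟩
      rw [Set.Finite.mem_toFinset] at hz
      obtain ⟨σ, hσ, rfl⟩ := hz
      exact ⟨σ, hσ, by rw [map_div₀, hσ c hc]⟩
  rw [N, h1, Finset.prod_image fun a _ b _ h => hinj h, Finset.prod_div_distrib,
    Finset.prod_const, ← Set.ncard_eq_toFinset_card _ (orb_finite F x)]
  rfl

lemma tor_divG {Γ : Subgroup Qbˣ} {x : Qb} (h : Tor x) : DivG Γ x := by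
  obtain ⟨n, hn, h⟩ := h
  exact ⟨n, hn, 1, one_mem Γ, by rw [h, Units.val_one]⟩

/-- the choice of a relative norm all whose further norms are in the division group -/
theorem choice (Γ : Subgroup Qbˣ) (x : Qb) (hx : ¬ DivG Γ x) :
    ∃ F' : GF, divF Γ ≤ F' ∧ F' ≤ divF Γ ⊔ adjoin ℚ {x} ∧ ¬ DivG Γ (N F' x) ∧
      ∀ F'' : GF, divF Γ ≤ F'' → F'' ≤ divF Γ ⊔ adjoin ℚ {N F' x} → N F' x ∉ F'' →
        DivG Γ (N F'' (N F' x)) := by
  classical
  set L := divF Γ with hL
  let P : ℕ → Prop := fun n => ∃ F' : GF, L ≤ F' ∧ F' ≤ L ⊔ adjoin ℚ {x} ∧ ¬ DivG Γ (N F' x) ∧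
    (orb F' x).ncard = n
  have hxL : x ∈ L ⊔ adjoin ℚ {x} := (le_sup_right : _ ≤ L ⊔ adjoin ℚ {x})
    (mem_adjoin_simple_self ℚ x)
  have hP1 : P 1 := ⟨L ⊔ adjoin ℚ {x}, le_sup_left, le_rfl, by rwa [N_of_mem hxL], by
    rw [orb_of_mem hxL, Set.ncard_singleton]⟩
  have hbd : ∀ F' : GF, L ≤ F' → (orb F' x).ncard ≤ (orb L x).ncard := fun F' h =>
    Set.ncard_le_ncard (orb_mono h x) (orb_finite _ _)
  have hD : 1 ≤ (orb L x).ncard := orb_ncard_pos L x
  obtain ⟨F', h1, h2, h3, h4⟩ := Nat.findGreatest_spec (P := P) hD hP1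
  refine ⟨F', h1, h2, h3, fun F'' k1 k2 k3 => ?_⟩
  by_contra hcon
  set η := N F' x with hη
  have hηF' : η ∈ F' := N_mem F' x
  have hF'' : F'' ≤ F' := by
    refine k2.trans (sup_le h1 ?_)
    rw [adjoin_le_iff]
    rintro z rfl
    exact hηF'
  have hfd : FiniteDimensional F'' (extendScalars hF'') := by
    refine finite_ext hF'' (x := x) (h2.trans ?_)
    exact sup_le_sup_right k1 _
  have h5 : ¬ DivG Γ (N F'' x) := fun h => hcon ((divG_norm hF'' hfd x).1 h)
  have h6 : (orb F'' x).ncard ≤ (orb F' x).ncard := by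
    by_contra hlt
    push Not at hlt
    rw [h4] at hlt
    exact Nat.findGreatest_is_greatest hlt (hbd F'' k1) ⟨F'', k1, hF''.trans h2, h5, rfl⟩
  have h7 : orb F' x = orb F'' x :=
    Set.eq_of_subset_of_ncard_le (orb_mono hF'' x) h6 (orb_finite _ _)
  have h8 : N F'' x = η := by
    have h9 : (orb_finite F'' x).toFinset = (orb_finite F' x).toFinset := by
      ext y
      rw [Set.Finite.mem_toFinset, Set.Finite.mem_toFinset, h7]
    rw [N, h9, hη, N]
  exact k3 (h8 ▸ N_mem F'' x)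

/-- the normalization -/
theorem normalize (Γ : Subgroup Qbˣ) (x : Qb) (hx0 : x ≠ 0) (hxL : x ∉ divF Γ)
    (h : ∀ F'' : GF, divF Γ ≤ F'' → F'' ≤ divF Γ ⊔ adjoin ℚ {x} → x ∉ F'' → DivG Γ (N F'' x)) :
    ∃ γ : Qb, DivG Γ γ ∧ ht γ ≤ ht x ∧ Prim Γ (x / γ) := by
  set L := divF Γ with hL
  set D := (orb L x).ncard with hD
  have hD0 : 0 < D := orb_ncard_pos L x
  have h1 : DivG Γ (N L x) := h L le_rfl le_sup_left hxL
  obtain ⟨γ, hγ⟩ := IsAlgClosed.exists_pow_nat_eq (N L x) hD0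
  have hγD : DivG Γ γ := Pool.Agent.TH53.RP.DivG.of_pow hD0 (by rw [hγ]; exact h1)
  have hγ0 : γ ≠ 0 := Pool.Agent.TH53.RP.DivG.ne_zero hγD
  have hγL : γ ∈ L := divG_mem hγD
  refine ⟨γ, hγD, ?_, ?_, ?_⟩
  · have h2 := ht_N_le L x
    rw [← hγ, Pool.Agent.H58B.ht_pow] at h2
    have h3 : (0 : ℝ) < D := by exact_mod_cast hD0
    exact le_of_mul_le_mul_left h2 h3
  · intro hcon
    apply hxL
    have := mul_mem hcon hγL
    rwa [div_mul_cancel₀ _ hγ0] at this
  · intro F' k1 k2 k3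
    have hxF' : x ∉ F' := by
      intro hcon
      exact k3 (div_mem hcon (k1 hγL))
    have k2' : F' ≤ L ⊔ adjoin ℚ {x} := by
      refine k2.trans (sup_le le_sup_left ?_)
      rw [adjoin_le_iff]
      rintro z rfl
      exact div_mem ((le_sup_right : _ ≤ L ⊔ adjoin ℚ {x}) (mem_adjoin_simple_self ℚ x))
        ((le_sup_left : L ≤ L ⊔ adjoin ℚ {x}) hγL)
    have h2 := h F' k1 k2' hxF'
    have h3 : DivG Γ (N F' (x / γ)) := by
      rw [N_div (k1 hγL) hγ0, div_eq_mul_inv]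
      exact Pool.Agent.W237.RK.DivG.mul h2 (DivG.inv (DivG.pow hγD _))
    have h4 : N L (x / γ) = 1 := by
      rw [N_div hγL hγ0, ← hD, hγ, div_self]
      exact N_ne_zero L hx0
    obtain ⟨a, b, ha, hb, hab⟩ := norm_rel k1 (finite_ext k1 k2) (x / γ)
    rw [h4, one_pow, N_of_mem (divG_mem h3)] at hab
    exact ⟨b, hb, hab.symm⟩

/-- **the reduction to the degree one form and the primitive numbers** -/
theorem reduce (Γ : Subgroup Qbˣ) {c₁ c₂ : ℝ} (hc₁ : 0 < c₁) (hc₂ : 0 < c₂)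
    (h1 : ∀ x : Qb, x ≠ 0 → x ∈ divF Γ → ¬ DivG Γ x → c₁ ≤ ht x)
    (h2 : ∀ x : Qb, x ≠ 0 → Prim Γ x → ¬ DivG Γ x → c₂ ≤ ((orb (divF Γ) x).ncard : ℝ) * ht x)
    (x : Qb) (hx0 : x ≠ 0) (hx : ¬ DivG Γ x) :
    min c₁ (c₂ / 2) ≤ ((orb (divF Γ) x).ncard : ℝ) * ht x := by
  obtain ⟨F', k1, k2, k3, k4⟩ := choice Γ x hx
  set L := divF Γ with hL
  set η := N F' x with hη
  have hη0 : η ≠ 0 := N_ne_zero F' hx0
  have hdeg := degree_mul_le k1 k2
  rw [← hη] at hdeg
  have hht := ht_N_le F' x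
  rw [← hη] at hht
  have hnn := ht_nonneg x
  have hkey : ((orb L η).ncard : ℝ) * ht η ≤ ((orb L x).ncard : ℝ) * ht x := by
    calc ((orb L η).ncard : ℝ) * ht η ≤ ((orb L η).ncard : ℝ) * (((orb F' x).ncard : ℝ) * ht x) :=
          mul_le_mul_of_nonneg_left hht (Nat.cast_nonneg _)
      _ = (((orb F' x).ncard * (orb L η).ncard : ℕ) : ℝ) * ht x := by push_cast; ring
      _ ≤ ((orb L x).ncard : ℝ) * ht x :=
          mul_le_mul_of_nonneg_right (by exact_mod_cast hdeg) hnn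
  refine le_trans ?_ hkey
  by_cases hηL : η ∈ L
  · have h3 := h1 η hη0 hηL k3
    rw [orb_of_mem hηL, Set.ncard_singleton, Nat.cast_one, one_mul]
    exact (min_le_left _ _).trans h3
  · obtain ⟨γ, hγ, hγh, hprim⟩ := normalize Γ η hη0 hηL k4
    have hγ0 : γ ≠ 0 := Pool.Agent.TH53.RP.DivG.ne_zero hγ
    have h3 := h2 (η / γ) (div_ne_zero hη0 hγ0) hprim (by
      intro hcon
      apply k3
      have := Pool.Agent.W237.RK.DivG.mul hcon hγ
      rwa [div_mul_cancel₀ _ hγ0] at this)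
    rw [orb_div_ncard hγ0 (divG_mem hγ)] at h3
    have h4 : ht (η / γ) ≤ 2 * ht η := by
      rw [div_eq_mul_inv]
      have h6 := ht_mul_le η γ⁻¹
      rw [ht_inv _ hγ0] at h6
      linarith
    have h5 : ((orb L η).ncard : ℝ) * ht (η / γ) ≤ ((orb L η).ncard : ℝ) * (2 * ht η) :=
      mul_le_mul_of_nonneg_left h4 (Nat.cast_nonneg _)
    refine (min_le_right _ _).trans ?_
    linarith

/-- no quotient of two conjugates of a primitive number is a root of unity -/
theorem prim_torsionfree (Γ : Subgroup Qbˣ) (x : Qb) (hp : Prim Γ x) (hx : ¬ DivG Γ x) (σ : Aut)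
    (hσ : Fix (divF Γ) σ) (ht : Tor (σ x / x)) : σ x = x := by
  classical
  have hx0 : x ≠ 0 := by
    rintro rfl
    exact hp.1 (zero_mem _)
  by_contra hne
  obtain ⟨n, hn, h1⟩ := ht
  have hn1 : (σ x) ^ n = x ^ n := by
    rw [div_pow, div_eq_one_iff_eq (pow_ne_zero _ hx0)] at h1
    exact h1
  set L := divF Γ with hL
  set F' : GF := L ⊔ adjoin ℚ {x ^ n} with hF'
  have hxL : x ∈ L ⊔ adjoin ℚ {x} := (le_sup_right : _ ≤ L ⊔ adjoin ℚ {x})
    (mem_adjoin_simple_self ℚ x)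
  have hle : F' ≤ L ⊔ adjoin ℚ {x} := by
    refine sup_le le_sup_left ?_
    rw [adjoin_le_iff]
    rintro z rfl
    exact pow_mem hxL n
  have hnot : x ∉ F' := by
    intro hcon
    apply hne
    exact fix_adjoin hσ (x := x ^ n) (by rw [map_pow, hn1]) x hcon
  have htor := hp.2 F' le_sup_left hle hnot
  have hxn : x ^ n ∈ F' := (le_sup_right : _ ≤ F') (mem_adjoin_simple_self ℚ _)
  -- the norm is a root of unity times a power of `x`
  have hprod : Tor (N F' x / x ^ (orb_finite F' x).toFinset.card) := by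
    have h2 : N F' x / x ^ (orb_finite F' x).toFinset.card
        = ∏ y ∈ (orb_finite F' x).toFinset, y / x := by
      rw [Finset.prod_div_distrib, Finset.prod_const]
      rfl
    rw [h2]
    have h3 : ∀ s : Finset Qb, s ⊆ (orb_finite F' x).toFinset → Tor (∏ y ∈ s, y / x) := by
      intro s
      induction s using Finset.induction_on with
      | empty => intro _; rw [Finset.prod_empty]; exact tor_one
      | insert y s hy ih =>
        intro hs
        rw [Finset.prod_insert hy]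
        refine Tor.mul ?_ (ih fun z hz => hs (Finset.mem_insert_of_mem hz))
        have h4 := hs (Finset.mem_insert_self y s)
        rw [Set.Finite.mem_toFinset] at h4
        obtain ⟨τ, hτ, rfl⟩ := h4
        refine ⟨n, hn, ?_⟩
        rw [div_pow, ← map_pow, hτ _ hxn, div_self (pow_ne_zero _ hx0)]
    exact h3 _ (Finset.Subset.refl _)
  have hcard : 0 < (orb_finite F' x).toFinset.card := by
    rw [← Set.ncard_eq_toFinset_card _ (orb_finite F' x)]
    exact orb_ncard_pos F' x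
  have hpow : Tor (x ^ (orb_finite F' x).toFinset.card) := by
    have h2 := htor.div hprod
    rwa [div_div_cancel₀ (N_ne_zero F' hx0)] at h2
  exact hx (tor_divG (Tor.of_pow hcard hpow))

lemma divG_mono {Γ Γ' : Subgroup Qbˣ} (h : Γ ≤ Γ') {x : Qb} (hx : DivG Γ x) : DivG Γ' x := by
  obtain ⟨n, hn, g, hg, h1⟩ := hx
  exact ⟨n, hn, g, h hg, h1⟩

lemma divF_mono {Γ Γ' : Subgroup Qbˣ} (h : Γ ≤ Γ') : divF Γ ≤ divF Γ' := by
  rw [divF, adjoin_le_iff]
  intro y hy
  exact divG_mem (divG_mono h hy)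

/-- **the strong inequality on the division group of a larger group** -/
theorem larger (Γ Γ' : Subgroup Qbˣ) (hΓ : Γ.FG) (hΓ' : Γ'.FG) : ∃ c : ℝ, 0 < c ∧
    ∀ x : Qb, DivG Γ' x → ¬ DivG Γ x → c ≤ ((orb (divF Γ) x).ncard : ℝ) * ht x := by
  obtain ⟨A, hA, hmain⟩ := main3 Γ hΓ
  obtain ⟨S, hS⟩ := id hΓ'
  set T : Set Qb := (fun u : Qbˣ => (u : Qb)) '' (S : Set Qbˣ) with hT
  have hTf : Finite T := (S.finite_toSet.image _)
  set E : IntermediateField cyc Qb := IntermediateField.adjoin cyc T with hE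
  have hEfd : FiniteDimensional cyc E :=
    IntermediateField.finiteDimensional_adjoin fun x _ =>
      (Pool.Agent.H58P.qb_isIntegral x).tower_top
  have hΓE : ∀ g ∈ Γ', (g : Qb) ∈ E := by
    intro g hg
    rw [← hS] at hg
    induction hg using Subgroup.closure_induction with
    | mem x hx => exact IntermediateField.subset_adjoin _ _ ⟨x, hx, rfl⟩
    | one => exact one_mem E
    | mul x y _ _ hx hy => rw [Units.val_mul]; exact mul_mem hx hy
    | inv x _ hx => rw [Units.val_inv_eq_inv_val]; exact inv_mem hx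
  set D := Module.finrank cyc E with hD
  have hD0 : 0 < D := Module.finrank_pos
  refine ⟨lowc A (D * B2 (1 + 1)), ?_, fun x hx hnd => ?_⟩
  · unfold lowc
    have h1 : (0 : ℝ) < ((D * B2 (1 + 1) : ℕ) : ℝ) := by
      exact_mod_cast Nat.mul_pos hD0 (B2_pos _)
    have h2 : (0 : ℝ) < A := by exact_mod_cast hA
    positivity
  · have hx0 : x ≠ 0 := Pool.Agent.TH53.RP.DivG.ne_zero hx
    obtain ⟨n, hn, g, hg, h1⟩ := hx
    have h2 := hmain 1 1 D E hEfd le_rfl (fun _ => x) (fun _ => 1)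
      (fun _ => ⟨n, hn, by rw [h1]; exact hΓE g hg⟩) (fun _ => ⟨1, one_pos, by
        rw [one_pow]; exact one_mem E⟩) x (by simp) (by simp) hx0 hnd
    have h3 : (orb (divF Γ) x).ncard = (minpoly (divF Γ) x).natDegree := orb_ncard _ _
    have h4 : (0 : ℝ) < ((minpoly (divF Γ) x).natDegree : ℝ) := by
      rw [← h3]
      exact_mod_cast orb_ncard_pos _ _
    rw [div_le_iff₀ h4] at h2
    rw [h3]
    linarith

/-- **the inequality for a group implies the inequality for its subgroups** -/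
theorem subgroups (Γ Γ' : Subgroup Qbˣ) (hΓ : Γ.FG) (hΓ' : Γ'.FG) (hle : Γ ≤ Γ')
    (h : ∃ c : ℝ, 0 < c ∧ ∀ x : Qb, x ≠ 0 → ¬ DivG Γ' x →
      c ≤ ((orb (divF Γ') x).ncard : ℝ) * ht x) :
    ∃ c : ℝ, 0 < c ∧ ∀ x : Qb, x ≠ 0 → ¬ DivG Γ x → c ≤ ((orb (divF Γ) x).ncard : ℝ) * ht x := by
  obtain ⟨c, hc, h⟩ := h
  obtain ⟨c', hc', h'⟩ := larger Γ Γ' hΓ hΓ'
  refine ⟨min c c', lt_min hc hc', fun x hx0 hx => ?_⟩
  by_cases hx' : DivG Γ' x
  · exact (min_le_right _ _).trans (h' x hx' hx)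
  · refine (min_le_left _ _).trans ((h x hx0 hx').trans ?_)
    refine mul_le_mul_of_nonneg_right ?_ (ht_nonneg x)
    exact_mod_cast Set.ncard_le_ncard (orb_mono (divF_mono hle) x) (orb_finite _ _)

/-- every finitely generated group is contained in a finitely generated group which is stable under
all automorphisms -/
theorem stable_hull (Γ : Subgroup Qbˣ) (hΓ : Γ.FG) : ∃ Γ' : Subgroup Qbˣ, Γ'.FG ∧ Γ ≤ Γ' ∧
    ∀ (σ : Aut), ∀ g ∈ Γ', Units.map (σ : Qb →* Qb) g ∈ Γ' := by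
  classical
  obtain ⟨S, hS⟩ := hΓ
  set T : Set Qbˣ := {u | ∃ σ : Aut, ∃ s ∈ S, u = Units.map (σ : Qb →* Qb) s} with hT
  have hTfin : T.Finite := by
    have h1 : ((fun u : Qbˣ => (u : Qb)) '' T).Finite := by
      refine (S.finite_toSet.biUnion (t := fun s : Qbˣ => orb ⊥ (s : Qb))
        fun s _ => orb_finite ⊥ (s : Qb)).subset ?_
      rintro _ ⟨u, ⟨σ, s, hs, rfl⟩, rfl⟩
      simp only [Set.mem_iUnion]
      refine ⟨s, hs, σ, ?_, rfl⟩
      intro y hy
      rw [IntermediateField.mem_bot] at hy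
      obtain ⟨q, rfl⟩ := hy
      exact σ.commutes q
    exact Set.Finite.of_finite_image h1 (Units.val_injective.injOn)
  refine ⟨Subgroup.closure T, ⟨hTfin.toFinset, by rw [Set.Finite.coe_toFinset]⟩, ?_, ?_⟩
  · rw [← hS, Subgroup.closure_le]
    intro s hs
    refine Subgroup.subset_closure ⟨1, s, hs, ?_⟩
    ext
    rfl
  · intro σ g hg
    induction hg using Subgroup.closure_induction with
    | mem u hu =>
      obtain ⟨τ, s, hs, rfl⟩ := hu
      refine Subgroup.subset_closure ⟨σ * τ, s, hs, ?_⟩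
      ext
      rfl
    | one => rw [map_one]; exact one_mem _
    | mul x y _ _ hx hy => rw [map_mul]; exact mul_mem hx hy
    | inv x _ hx => rw [map_inv]; exact inv_mem hx

end Pool.Agent.V5helper40.RRed
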