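import Pool.Agent.V5helper40.RRed.Main

/-!
# The degree one form and quotients of conjugates
-/

set_option autoImplicit false

namespace Pool.Agent.V5helper40.RRed

open Polynomial IntermediateField
open Pool.Agent.W237.RK
open Pool.Agent.H58P (Qb ht)
open Pool.Agent.H58R (ht_nonneg ht_mul_le ht_inv ht_zpow ht_prod_le)
open Pool.Agent.TH53.RP
open Pool.Agent.TH53.BL

/-- the field `ℚ(μ_∞, Γ)` -/
noncomputable def baseF (Γ : Subgroup Qbˣ) : GF :=
  adjoin ℚ ({y | ∃ n : ℕ, 0 < n ∧ y ^ n = 1} ∪ {y | ∃ g ∈ Γ, y = (g : Qb)})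

/-- iterated quotients of conjugates -/
def Quo (Γ : Subgroup Qbˣ) : ℕ → Set Qb
  | 0 => {x | x ≠ 0 ∧ x ∈ divF Γ}
  | k + 1 => {x | ∃ y ∈ Quo Γ k, ∃ σ : Aut, Fix (baseF Γ) σ ∧ x = σ y / y}

lemma fix_val {Γ : Subgroup Qbˣ} {σ : Aut} (h : Fix (baseF Γ) σ) {g : Qbˣ} (hg : g ∈ Γ) :
    σ (g : Qb) = (g : Qb) :=
  h _ (subset_adjoin _ _ (Or.inr ⟨g, hg, rfl⟩))

lemma quo_props (Γ : Subgroup Qbˣ) : ∀ (k : ℕ) (x : Qb), x ∈ Quo Γ k → x ≠ 0 ∧ x ∈ divF Γ := by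
  intro k
  induction k with
  | zero => exact fun x hx => hx
  | succ k ih =>
    rintro x ⟨y, hy, σ, hσ, rfl⟩
    obtain ⟨hy0, hyL⟩ := ih y hy
    refine ⟨div_ne_zero ((_root_.map_ne_zero σ).mpr hy0) hy0, div_mem ?_ hyL⟩
    have h1 : divF Γ ≤ (divF Γ).comap (σ : Qb →ₐ[ℚ] Qb) := by
      rw [divF, adjoin_le_iff]
      rintro z ⟨n, hn, g, hg, hz⟩
      refine subset_adjoin _ _ ⟨n, hn, g, hg, ?_⟩
      show (σ z) ^ n = (g : Qb)
      rw [← map_pow, hz, fix_val hσ hg]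
    exact h1 hyL

/-- numbers all whose quotients of conjugates are in the division group are radicals -/
theorem radical_of (Γ : Subgroup Qbˣ) (x : Qb) (hx0 : x ≠ 0)
    (h : ∀ σ : Aut, Fix (baseF Γ) σ → DivG Γ (σ x / x)) : ∃ n : ℕ, 0 < n ∧ x ^ n ∈ baseF Γ := by
  classical
  -- the quotients are roots of unity
  have htor : ∀ σ : Aut, Fix (baseF Γ) σ → Tor (σ x / x) := by
    intro σ hσ
    set γ := σ x / x with hγ
    have hγD := h σ hσ
    have hγ0 : γ ≠ 0 := Pool.Agent.TH53.RP.DivG.ne_zero hγD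
    have hσγ : ∀ k : ℕ, Tor ((σ ^ k) γ / γ) := by
      intro k
      obtain ⟨n, hn, g, hg, h1⟩ := hγD
      refine ⟨n, hn, ?_⟩
      rw [div_pow, ← map_pow, h1, fix_val (fix_pow hσ k) hg, div_self (Units.ne_zero g)]
    -- `σ ^ k x = ω γ ^ k x`
    have hpow : ∀ k : ℕ, Tor ((σ ^ k) x / (γ ^ k * x)) := by
      intro k
      induction k with
      | zero => simpa [div_self hx0] using tor_one
      | succ k ih =>
        have h2 : σ x = γ * x := by rw [hγ, div_mul_cancel₀ _ hx0]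
        have h3 : (σ ^ (k + 1)) x = (σ ^ k) γ * (σ ^ k) x := by
          rw [pow_succ]
          show (σ ^ k) (σ x) = _
          rw [h2, map_mul]
        have h4 : (σ ^ (k + 1)) x / (γ ^ (k + 1) * x)
            = ((σ ^ k) γ / γ) * ((σ ^ k) x / (γ ^ k * x)) := by
          rw [h3, pow_succ]
          field_simp
        rw [h4]
        exact (hσγ k).mul ih
    -- two powers of `σ` agree on `x`
    obtain ⟨i, j, hij, hij2⟩ : ∃ i j : ℕ, i < j ∧ (σ ^ i) x = (σ ^ j) x := by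
      have hfin := orb_finite (baseF Γ) x
      have hnotinj : ¬ Function.Injective (fun k : ℕ => (⟨(σ ^ k) x, ⟨σ ^ k, fix_pow hσ k, rfl⟩⟩ :
          orb (baseF Γ) x)) := by
        have := hfin.to_subtype
        exact not_injective_infinite_finite _
      rw [Function.Injective] at hnotinj
      push Not at hnotinj
      obtain ⟨i, j, h5, h6⟩ := hnotinj
      have h7 : (σ ^ i) x = (σ ^ j) x := congrArg Subtype.val h5
      rcases lt_or_gt_of_ne h6 with h8 | h8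
      · exact ⟨i, j, h8, h7⟩
      · exact ⟨j, i, h8, h7.symm⟩
    have h9 := (hpow i).div (hpow j)
    rw [← hij2] at h9
    have hsx : (σ ^ i) x ≠ 0 := (_root_.map_ne_zero _).mpr hx0
    have h10 : (σ ^ i) x / (γ ^ i * x) / ((σ ^ i) x / (γ ^ j * x)) = γ ^ (j - i) := by
      have h11 : γ ^ j = γ ^ (j - i) * γ ^ i := by rw [← pow_add, Nat.sub_add_cancel hij.le]
      rw [h11]
      field_simp
    rw [h10] at h9
    exact Tor.of_pow (by omega) h9
  -- a common exponent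
  have hfin := orb_finite (baseF Γ) x
  have hch : ∀ y : Qb, ∃ n : ℕ, 0 < n ∧ (y ∈ orb (baseF Γ) x → (y / x) ^ n = 1) := by
    intro y
    by_cases hy : y ∈ orb (baseF Γ) x
    · obtain ⟨σ, hσ, rfl⟩ := hy
      obtain ⟨n, hn, h1⟩ := htor σ hσ
      exact ⟨n, hn, fun _ => h1⟩
    · exact ⟨1, one_pos, fun h => absurd h hy⟩
  choose n hn hn2 using hch
  refine ⟨∏ y ∈ hfin.toFinset, n y, Finset.prod_pos fun y _ => hn y, ?_⟩
  apply mem_of_fix
  intro σ hσ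
  have hmem : σ x ∈ orb (baseF Γ) x := ⟨σ, hσ, rfl⟩
  obtain ⟨m, hm⟩ := Finset.dvd_prod_of_mem n (hfin.mem_toFinset.2 hmem)
  have h1 : (σ x / x) ^ ∏ y ∈ hfin.toFinset, n y = 1 := by
    rw [hm, pow_mul, hn2 _ hmem, one_pow]
  rw [div_pow, div_eq_one_iff_eq (pow_ne_zero _ hx0)] at h1
  rw [map_pow, h1]

/-- the lower bound for radicals in `F_Γ` -/
theorem radical_bound (Γ : Subgroup Qbˣ) (hΓ : Γ.FG) : ∃ c : ℝ, 0 < c ∧
    ∀ x : Qb, x ≠ 0 → x ∈ divF Γ → ¬ DivG Γ x → (∃ n : ℕ, 0 < n ∧ x ^ n ∈ baseF Γ) → c ≤ ht x := by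
  obtain ⟨A, hA, hmain⟩ := main3 Γ hΓ
  obtain ⟨S, hS⟩ := id hΓ
  set T : Set Qb := (fun u : Qbˣ => (u : Qb)) '' (S : Set Qbˣ) with hT
  have hTf : Finite T := (S.finite_toSet.image _)
  set E : IntermediateField cyc Qb := IntermediateField.adjoin cyc T with hE
  have hEfd : FiniteDimensional cyc E :=
    IntermediateField.finiteDimensional_adjoin fun x _ =>
      (Pool.Agent.H58P.qb_isIntegral x).tower_top
  have hΓE : ∀ g ∈ Γ, (g : Qb) ∈ E := by
    intro g hg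
    rw [← hS] at hg
    induction hg using Subgroup.closure_induction with
    | mem x hx => exact IntermediateField.subset_adjoin _ _ ⟨x, hx, rfl⟩
    | one => exact one_mem E
    | mul x y _ _ hx hy => rw [Units.val_mul]; exact mul_mem hx hy
    | inv x _ hx => rw [Units.val_inv_eq_inv_val]; exact inv_mem hx
  have hbase : ∀ y ∈ baseF Γ, y ∈ E := by
    have h1 : baseF Γ ≤ E.restrictScalars ℚ := by
      rw [baseF, adjoin_le_iff]
      rintro y (hy | ⟨g, hg, rfl⟩)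
      · exact E.algebraMap_mem ⟨y, subset_adjoin _ _ hy⟩
      · exact hΓE g hg
    exact fun y hy => h1 hy
  set D := Module.finrank cyc E with hD
  have hD0 : 0 < D := Module.finrank_pos
  refine ⟨lowc A (D * B2 (1 + 1)), ?_, fun x hx0 hxL hnd hrad => ?_⟩
  · unfold lowc
    have h1 : (0 : ℝ) < ((D * B2 (1 + 1) : ℕ) : ℝ) := by
      exact_mod_cast Nat.mul_pos hD0 (B2_pos _)
    have h2 : (0 : ℝ) < A := by exact_mod_cast hA
    positivity
  · obtain ⟨n, hn, h1⟩ := hrad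
    have h2 := hmain 1 1 D E hEfd le_rfl (fun _ => x) (fun _ => 1)
      (fun _ => ⟨n, hn, hbase _ h1⟩) (fun _ => ⟨1, one_pos, by
        rw [one_pow]; exact one_mem E⟩) x (by simp) (by simp) hx0 hnd
    have h3 : (orb (divF Γ) x).ncard = (minpoly (divF Γ) x).natDegree := orb_ncard _ _
    rw [orb_of_mem hxL, Set.ncard_singleton] at h3
    rw [← h3, Nat.cast_one, div_one] at h2
    exact h2

/-- **the degree one form follows from the bound for iterated quotients of conjugates** -/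
theorem degree_one_of_quo (Γ : Subgroup Qbˣ) (hΓ : Γ.FG) (k : ℕ)
    (h : ∃ c : ℝ, 0 < c ∧ ∀ x ∈ Quo Γ k, ¬ DivG Γ x → c ≤ ht x) :
    ∃ c : ℝ, 0 < c ∧ ∀ x : Qb, x ≠ 0 → x ∈ divF Γ → ¬ DivG Γ x → c ≤ ht x := by
  obtain ⟨c₀, hc₀, hrad⟩ := radical_bound Γ hΓ
  induction k with
  | zero =>
    obtain ⟨c, hc, h⟩ := h
    exact ⟨c, hc, fun x hx0 hxL hx => h x ⟨hx0, hxL⟩ hx⟩
  | succ k ih =>
    apply ih
    obtain ⟨c, hc, h⟩ := h
    refine ⟨min c₀ (c / 2), lt_min hc₀ (by positivity), fun x hx hnd => ?_⟩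
    obtain ⟨hx0, hxL⟩ := quo_props Γ k x hx
    by_cases hall : ∀ σ : Aut, Fix (baseF Γ) σ → DivG Γ (σ x / x)
    · exact (min_le_left _ _).trans (hrad x hx0 hxL hnd (radical_of Γ x hx0 hall))
    · push Not at hall
      obtain ⟨σ, hσ, h1⟩ := hall
      have h2 := h (σ x / x) ⟨x, hx, σ, hσ, rfl⟩ h1
      have h3 : ht (σ x / x) ≤ 2 * ht x := by
        rw [div_eq_mul_inv]
        have h6 := ht_mul_le (σ x) x⁻¹
        rw [ht_inv _ hx0, Pool.Agent.H58B.ht_conj] at h6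
        linarith
      refine (min_le_right _ _).trans ?_
      linarith

/-- the unconditional case: a relative norm is a quotient of sums of radicals -/
theorem norm_case (Γ : Subgroup Qbˣ) (hΓ : Γ.FG) : ∃ A : ℕ, 0 < A ∧
    ∀ (k l D : ℕ) (E : IntermediateField cyc Qb), FiniteDimensional cyc E →
      Module.finrank cyc E ≤ D → ∀ (θ : Fin k → Qb) (θ' : Fin l → Qb),
      (∀ j, ∃ m : ℕ, 0 < m ∧ θ j ^ m ∈ E) → (∀ j, ∃ m : ℕ, 0 < m ∧ θ' j ^ m ∈ E) →
      ∑ j, θ' j ≠ 0 → ∀ ξ : Qb, ξ ≠ 0 → ∀ F' : GF, divF Γ ≤ F' → F' ≤ divF Γ ⊔ adjoin ℚ {ξ} →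
      ((minpoly F' ξ).coeff 0 : Qb) = (∑ j, θ j) / ∑ j, θ' j →
      ¬ DivG Γ ((minpoly F' ξ).coeff 0 : Qb) →
      lowc A (D * B2 (k + l)) ≤ ((minpoly (divF Γ) ξ).natDegree : ℝ) * ht ξ := by
  obtain ⟨A, hA, hmain⟩ := main3 Γ hΓ
  refine ⟨A, hA, ?_⟩
  intro k l D E hE hD θ θ' hθ hθ' hQ ξ hξ F' h1 h2 hquot hnd
  set η := ((minpoly F' ξ).coeff 0 : Qb) with hη
  set s : Qb := (-1) ^ (orb_finite F' ξ).toFinset.card with hs
  have hs1 : s = 1 ∨ s = -1 := neg_one_pow_eq_or Qb _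
  have hsη : η = s * N F' ξ := coeff_zero_eq F' ξ
  have hN0 : N F' ξ ≠ 0 := N_ne_zero F' hξ
  have hs0 : s ≠ 0 := by rcases hs1 with h | h <;> rw [h] <;> norm_num
  have hη0 : η ≠ 0 := by rw [hsη]; exact mul_ne_zero hs0 hN0
  have hm := hmain k l D E hE hD θ θ' hθ hθ' η (by rw [hquot, div_mul_cancel₀ _ hQ]) hQ hη0 hnd
  have hstor : Tor s := tor_neg_one_pow _
  have hht : ht η = ht (N F' ξ) := by rw [hsη, ht_tor_mul hstor]
  have hsL : s ∈ divF Γ := divG_mem (tor_divG hstor)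
  have horb : (orb (divF Γ) η).ncard = (orb (divF Γ) (N F' ξ)).ncard := by
    have h3 : η = N F' ξ / s⁻¹ := by rw [hsη, div_inv_eq_mul, mul_comm]
    rw [h3, orb_div_ncard (inv_ne_zero hs0) (inv_mem hsL)]
  have hdη : (0 : ℝ) < ((minpoly (divF Γ) η).natDegree : ℝ) := by
    rw [← orb_ncard]
    exact_mod_cast orb_ncard_pos _ _
  rw [div_le_iff₀ hdη, hht, ← orb_ncard, horb] at hm
  refine hm.trans ?_
  have hdeg := degree_mul_le h1 h2
  have hh := ht_N_le F' ξ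
  rw [← orb_ncard]
  calc ht (N F' ξ) * ((orb (divF Γ) (N F' ξ)).ncard : ℝ)
      ≤ (((orb F' ξ).ncard : ℝ) * ht ξ) * ((orb (divF Γ) (N F' ξ)).ncard : ℝ) :=
        mul_le_mul_of_nonneg_right hh (Nat.cast_nonneg _)
    _ = (((orb F' ξ).ncard * (orb (divF Γ) (N F' ξ)).ncard : ℕ) : ℝ) * ht ξ := by
        push_cast; ring
    _ ≤ ((orb (divF Γ) ξ).ncard : ℝ) * ht ξ :=
        mul_le_mul_of_nonneg_right (by exact_mod_cast hdeg) (ht_nonneg ξ)

end Pool.Agent.V5helper40.RRed
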