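import Pool.Agent.V5helper40.RRed.Quo

/-!
# Sums of radicals over extensions of bounded degree of the field of smooth roots
-/

set_option autoImplicit false
set_option linter.unusedVariables false

namespace Pool.Agent.V5helper40.RRed

open Polynomial IntermediateField
open Pool.Agent.W237.RK
open Pool.Agent.H58P (Qb ht)
open Pool.Agent.H58R (ht_nonneg ht_mul_le ht_inv ht_zpow ht_prod_le)
open Pool.Agent.TH53.RP
open Pool.Agent.TH53.BL

/-- the number of conjugates over a finite extension -/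
theorem orb_ext' (L M : GF) (hL : M ≤ L) (E : IntermediateField M Qb)
    [FiniteDimensional M E] (x : Qb) :
    (orb L x).ncard ≤ Module.finrank M E * (orb (L ⊔ E.restrictScalars ℚ) x).ncard := by
  classical
  set F : GF := L ⊔ E.restrictScalars ℚ with hF
  let r : fixG L → (E →ₐ[M] Qb) := fun σ =>
    { toFun := fun y => σ.1 (y : Qb)
      map_one' := by simp
      map_mul' := fun a b => by simp
      map_zero' := by simp
      map_add' := fun a b => by simp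
      commutes' := fun c => σ.2 _ (hL c.2) }
  have hr : ∀ σ (y : E), r σ y = σ.1 (y : Qb) := fun _ _ => rfl
  let s : (E →ₐ[M] Qb) → Set Qb := fun φ => {y | ∃ σ : fixG L, r σ = φ ∧ σ.1 x = y}
  have hs : ∀ φ, (s φ).ncard ≤ (orb F x).ncard := by
    intro φ
    by_cases hne : ∃ σ : fixG L, r σ = φ
    · obtain ⟨σ₀, hσ₀⟩ := hne
      have hsub : s φ ⊆ σ₀.1 '' orb F x := by
        rintro _ ⟨σ, hσ, rfl⟩
        refine ⟨(σ₀.1⁻¹ * σ.1) x, ⟨σ₀.1⁻¹ * σ.1, ?_, rfl⟩, ?_⟩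
        · apply fix_sup (fix_mul (fix_inv σ₀.2) σ.2)
          intro y hy
          have h1 : σ.1 y = σ₀.1 y := by
            have := DFunLike.congr_fun (hσ.trans hσ₀.symm) (⟨y, hy⟩ : E)
            exact this
          rw [AlgEquiv.mul_apply, h1, inv_apply_self]
        · rw [AlgEquiv.mul_apply, apply_inv_self]
      refine (Set.ncard_le_ncard hsub ((orb_finite F x).image _)).trans ?_
      exact Set.ncard_image_le (orb_finite F x)
    · have : s φ = ∅ := by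
        rw [Set.eq_empty_iff_forall_notMem]
        rintro y ⟨σ, hσ, -⟩
        exact hne ⟨σ, hσ⟩
      rw [this, Set.ncard_empty]
      exact Nat.zero_le _
  have hfin : ∀ φ, (s φ).Finite := by
    intro φ
    apply (orb_finite L x).subset
    rintro _ ⟨σ, -, rfl⟩
    exact ⟨σ.1, σ.2, rfl⟩
  have hcover : orb L x ⊆ ⋃ φ ∈ (Finset.univ : Finset (E →ₐ[M] Qb)), s φ := by
    rintro _ ⟨σ, hσ, rfl⟩
    simp only [Finset.mem_univ, Set.iUnion_true, Set.mem_iUnion]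
    exact ⟨r ⟨σ, hσ⟩, ⟨σ, hσ⟩, rfl, rfl⟩
  calc (orb L x).ncard ≤ (⋃ φ ∈ (Finset.univ : Finset (E →ₐ[M] Qb)), s φ).ncard := by
        refine Set.ncard_le_ncard hcover ?_
        exact Set.Finite.biUnion (Finset.finite_toSet _) fun φ _ => hfin φ
    _ ≤ ∑ φ ∈ (Finset.univ : Finset (E →ₐ[M] Qb)), (s φ).ncard :=
        Finset.set_ncard_biUnion_le _ _
    _ ≤ ∑ φ ∈ (Finset.univ : Finset (E →ₐ[M] Qb)), (orb F x).ncard :=
        Finset.sum_le_sum fun φ _ => hs φ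
    _ = Module.finrank M E * (orb F x).ncard := by
        rw [Finset.sum_const, Finset.card_univ, AlgHom.card, smul_eq_mul]

/-- **the strong form for quotients of sums of radicals** -/
theorem main4 (Γ : Subgroup Qbˣ) (hΓfg : Γ.FG) (K : GF) (hKfd : FiniteDimensional ℚ K)
    (hΓK : ∀ g ∈ Γ, (g : Qb) ∈ K) (P : Finset ℕ) (hP : ∀ p ∈ P, p.Prime) : ∃ A : ℕ, 0 < A ∧
    ∀ (M : GF), M ≤ fullField K Γ P → ∀ (k l D : ℕ) (E : IntermediateField M Qb),
      FiniteDimensional M E → Module.finrank M E ≤ D → ∀ (θ : Fin k → Qb) (θ' : Fin l → Qb),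
      (∀ j, ∃ m : ℕ, 0 < m ∧ θ j ^ m ∈ E) → (∀ j, ∃ m : ℕ, 0 < m ∧ θ' j ^ m ∈ E) →
      ∀ α : Qb, α * ∑ j, θ' j = ∑ j, θ j → ∑ j, θ' j ≠ 0 → α ≠ 0 → ¬ DivG Γ α →
      lowc A (D * B2 (k + l)) / ((minpoly (divF Γ) α).natDegree : ℝ) ≤ ht α := by
  obtain ⟨A, hA, hmain⟩ := dist' K Γ hKfd hΓfg hΓK P hP
  refine ⟨A + 1, Nat.succ_pos _, ?_⟩
  intro M hML k l D E hE hD θ θ' hθ hθ' α hα hQ hα0 hnd
  set L : GF := fullField K Γ P with hL
  set F : GF := L ⊔ E.restrictScalars ℚ with hF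
  set B : ℕ := B2 (k + l) with hB
  have hTorL : ∀ x : Qb, Tor x → x ∈ L := fun x hx => kinf_le_fullField K Γ P (tor_mem_kinf K hx)
  have hLF : L ≤ F := le_sup_left
  have hEF : E.restrictScalars ℚ ≤ F := le_sup_right
  have hTorF : ∀ x : Qb, Tor x → x ∈ F := fun x hx => hLF (hTorL x hx)
  have hΓF : ∀ g ∈ Γ, (g : Qb) ∈ F := fun g hg => hLF (le_fullField K Γ P (hΓK g hg))
  have hD0 : 0 < D := lt_of_lt_of_le Module.finrank_pos hD
  have hB0 : 0 < B := B2_pos _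
  have hDB : 0 < D * B := Nat.mul_pos hD0 hB0
  set d : ℕ := (minpoly (divF Γ) α).natDegree with hd
  have hd' : (orb (divF Γ) α).ncard = d := orb_ncard _ _
  have hd0 : 0 < d := by rw [← hd']; exact orb_ncard_pos _ _
  have hdR : (1 : ℝ) ≤ d := by exact_mod_cast hd0
  have hBR : (1 : ℝ) ≤ B := by exact_mod_cast hB0
  have hAR : (1 : ℝ) ≤ A := by exact_mod_cast hA
  have hDBR : (1 : ℝ) ≤ ((D * B : ℕ) : ℝ) := by exact_mod_cast hDB
  have hBDB : (B : ℝ) ≤ ((D * B : ℕ) : ℝ) := by exact_mod_cast Nat.le_mul_of_pos_left _ hD0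
  have hpow : (1 : ℝ) ≤ ((D * B : ℕ) : ℝ) ^ A := one_le_pow₀ hDBR
  -- comparison of the constants
  have hconst : (A : ℝ) * ((D * B : ℕ) : ℝ) ^ A * B ≤
      ((A + 1 : ℕ) : ℝ) * ((D * B : ℕ) : ℝ) ^ (A + 1) := by
    rw [pow_succ]
    push_cast
    push_cast at hBDB hpow hDBR
    have h1 : (A : ℝ) * ((D : ℝ) * B) ^ A * B ≤ A * ((D : ℝ) * B) ^ A * (D * B) := by
      apply mul_le_mul_of_nonneg_left hBDB (by positivity)
    have h2 : (0 : ℝ) ≤ ((D : ℝ) * B) ^ A * (D * B) := by positivity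
    nlinarith
  rw [lowc, ← one_div, div_div, div_le_iff₀ (by positivity)]
  rcases step3 F hTorF θ θ' (fun j => by
      obtain ⟨m, hm, h⟩ := hθ j
      exact ⟨m, hm, hEF h⟩) (fun j => by
      obtain ⟨m, hm, h⟩ := hθ' j
      exact ⟨m, hm, hEF h⟩) α hα hα0 hQ with h | ⟨γ₀, hγ₀, horb⟩
  · -- large height
    have h0 : (0 : ℝ) < B := by linarith
    rw [← hB, inv_le_iff_one_le_mul₀ h0] at h
    have h2 : (B : ℝ) ≤ ((A + 1 : ℕ) : ℝ) * ((D * B : ℕ) : ℝ) ^ (A + 1) * d := by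
      have h3 : (B : ℝ) ≤ (A : ℝ) * ((D * B : ℕ) : ℝ) ^ A * B := by
        have : (1 : ℝ) ≤ (A : ℝ) * ((D * B : ℕ) : ℝ) ^ A := by nlinarith
        nlinarith
      have h4 := h3.trans hconst
      have h5 : (0 : ℝ) ≤ ((A + 1 : ℕ) : ℝ) * ((D * B : ℕ) : ℝ) ^ (A + 1) := by positivity
      nlinarith
    have h6 := ht_nonneg α
    calc (1 : ℝ) ≤ ht α * B := by linarith
      _ ≤ ht α * (((A + 1 : ℕ) : ℝ) * ((D * B : ℕ) : ℝ) ^ (A + 1) * d) :=
          mul_le_mul_of_nonneg_left h2 h6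
  · set Fi : GF := F ⊔ divF Γ with hFi
    set β : Qb := α / γ₀ with hβ
    have hγ₀0 : γ₀ ≠ 0 := hγ₀.1
    have hβ0 : β ≠ 0 := div_ne_zero hα0 hγ₀0
    have hγβ : γ₀ = α / β := by
      rw [hβ]
      field_simp
    have hαβ : α = β * γ₀ := by rw [hβ, div_mul_cancel₀ _ hγ₀0]
    have hFFi : F ≤ Fi := le_sup_left
    have hdFi : divF Γ ≤ Fi := le_sup_right
    -- the order of the radical
    have hord : (orb Fi γ₀).ncard ≤ d * B := by
      conv_lhs => rw [hγβ]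
      refine (orb_div_le Fi α β).trans (Nat.mul_le_mul ?_ ?_)
      · rw [← hd']
        exact Set.ncard_le_ncard (orb_mono hdFi α) (orb_finite _ _)
      · exact (Set.ncard_le_ncard (orb_mono hFFi β) (orb_finite _ _)).trans horb
    obtain ⟨m, hm0, hm, hrig⟩ := torRigid_small (Finf := Fi)
      (fun x hx => hFFi (hTorF x hx)) hγ₀0 hord
    have hmem : γ₀ ^ m ∈ Fi := by
      apply mem_of_fix Fi
      intro ρ hρ
      apply hrig ρ hρ
      exact (hγ₀.pow m).tor ⟨ρ, fix_mono hFFi hρ⟩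
    obtain ⟨f, hf, γ, hγ, hfγ⟩ := kummer F Γ hTorF hΓF (γ₀ ^ m) (hγ₀.pow m) hmem
    have hγ0 : γ ≠ 0 := Pool.Agent.TH53.RP.DivG.ne_zero hγ
    have hf0 : f ≠ 0 := by
      rintro rfl
      rw [zero_mul] at hfγ
      exact pow_ne_zero _ hγ₀0 hfγ
    set y : Qb := β ^ m / f⁻¹ with hy
    have hy' : y = β ^ m * f := by rw [hy, div_inv_eq_mul]
    have hy0 : y ≠ 0 := by rw [hy']; exact mul_ne_zero (pow_ne_zero _ hβ0) hf0
    have hαm : α ^ m = y * γ := by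
      rw [hαβ, mul_pow, hfγ, hy']
      ring
    have horby : (orb F y).ncard ≤ B := by
      rw [hy, orb_div_ncard (inv_ne_zero hf0) (inv_mem hf)]
      exact (orb_pow_ncard β m).trans horb
    have horbL : (orb L y).ncard ≤ D * B :=
      (orb_ext' L M hML E y).trans (Nat.mul_le_mul hD horby)
    have hyd : ¬ DivG Γ y := by
      intro hcon
      apply hnd
      have h1 : DivG Γ (α ^ m) := by
        rw [hαm]
        exact Pool.Agent.W237.RK.DivG.mul hcon hγ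
      exact Pool.Agent.TH53.RP.DivG.of_pow hm0 h1
    have h2 := hmain (D * B) hDB y hy0 horbL hyd γ⁻¹ (DivG.inv hγ)
    rw [div_inv_eq_mul, ← hαm, Pool.Agent.H58B.ht_pow, lowc, ← one_div,
      div_le_iff₀ (by positivity)] at h2
    have hmR : (m : ℝ) ≤ (d : ℝ) * B := by exact_mod_cast hm
    have h6 := ht_nonneg α
    have h7 : (0 : ℝ) ≤ (A : ℝ) * ((D * B : ℕ) : ℝ) ^ A := by positivity
    calc (1 : ℝ) ≤ m * ht α * ((A : ℝ) * ((D * B : ℕ) : ℝ) ^ A) := h2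
      _ ≤ (d * B) * ht α * ((A : ℝ) * ((D * B : ℕ) : ℝ) ^ A) := by gcongr
      _ = ht α * (((A : ℝ) * ((D * B : ℕ) : ℝ) ^ A * B) * d) := by ring
      _ ≤ ht α * ((((A + 1 : ℕ) : ℝ) * ((D * B : ℕ) : ℝ) ^ (A + 1)) * d) := by gcongr


/-- the generators of a group and of a field -/
lemma exists_field (K : GF) (hKfd : FiniteDimensional ℚ K) (Γ : Subgroup Qbˣ) (hΓfg : Γ.FG) :
    ∃ K' : GF, FiniteDimensional ℚ K' ∧ K ≤ K' ∧ ∀ g ∈ Γ, (g : Qb) ∈ K' := by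
  obtain ⟨S, hS⟩ := id hΓfg
  set T : Set Qb := (fun u : Qbˣ => (u : Qb)) '' (S : Set Qbˣ) with hT
  have hTf : Finite T := (S.finite_toSet.image _)
  have hTfd : FiniteDimensional ℚ (IntermediateField.adjoin ℚ T) :=
    IntermediateField.finiteDimensional_adjoin fun x _ => Pool.Agent.H58P.qb_isIntegral x
  refine ⟨K ⊔ IntermediateField.adjoin ℚ T,
    IntermediateField.finiteDimensional_sup K (IntermediateField.adjoin ℚ T), le_sup_left, ?_⟩
  intro g hg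
  rw [← hS] at hg
  induction hg using Subgroup.closure_induction with
  | mem x hx =>
    exact (le_sup_right : IntermediateField.adjoin ℚ T ≤ K ⊔ IntermediateField.adjoin ℚ T)
      (IntermediateField.subset_adjoin _ _ ⟨x, hx, rfl⟩)
  | one => exact one_mem _
  | mul x y _ _ hx hy => rw [Units.val_mul]; exact mul_mem hx hy
  | inv x _ hx => rw [Units.val_inv_eq_inv_val]; exact inv_mem hx

lemma fullField_mono {K K' : GF} {Γ Γ' : Subgroup Qbˣ} {P : Finset ℕ} (hK : K ≤ K')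
    (hΓ : Γ ≤ Γ') : fullField K Γ P ≤ fullField K' Γ' P := by
  apply sup_le (hK.trans (le_fullField K' Γ' P))
  rw [adjoin_le_iff]
  rintro y (hy | ⟨n, hn, g, hg, h⟩)
  · exact (le_sup_right : _ ≤ fullField K' Γ' P) (subset_adjoin _ _ (Or.inl hy))
  · exact (le_sup_right : _ ≤ fullField K' Γ' P) (subset_adjoin _ _ (Or.inr ⟨n, hn, g, hΓ hg, h⟩))

/-- **the strong form for quotients of sums of radicals over extensions of bounded degree of the
field of smooth roots of a finitely generated group** -/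
theorem main5 (Γ Γ₁ : Subgroup Qbˣ) (hΓfg : Γ.FG) (hΓ₁ : Γ₁.FG) (K : GF)
    (hKfd : FiniteDimensional ℚ K) (P : Finset ℕ) (hP : ∀ p ∈ P, p.Prime) : ∃ A : ℕ, 0 < A ∧
    ∀ (k l D : ℕ) (E : IntermediateField (fullField K Γ₁ P) Qb),
      FiniteDimensional (fullField K Γ₁ P) E → Module.finrank (fullField K Γ₁ P) E ≤ D →
      ∀ (θ : Fin k → Qb) (θ' : Fin l → Qb),
      (∀ j, ∃ m : ℕ, 0 < m ∧ θ j ^ m ∈ E) → (∀ j, ∃ m : ℕ, 0 < m ∧ θ' j ^ m ∈ E) →
      ∀ α : Qb, α * ∑ j, θ' j = ∑ j, θ j → ∑ j, θ' j ≠ 0 → α ≠ 0 → ¬ DivG Γ α →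
      lowc A (D * B2 (k + l)) ≤ ((orb (divF Γ) α).ncard : ℝ) * ht α := by
  have hΓ'fg : (Γ ⊔ Γ₁).FG := Subgroup.FG.sup hΓfg hΓ₁
  obtain ⟨K', hK'fd, hKK', hΓK'⟩ := exists_field K hKfd (Γ ⊔ Γ₁) hΓ'fg
  obtain ⟨A₁, hA₁, hmain⟩ := main4 (Γ ⊔ Γ₁) hΓ'fg K' hK'fd hΓK' P hP
  obtain ⟨c, hc, hlarge⟩ := larger Γ (Γ ⊔ Γ₁) hΓfg hΓ'fg
  obtain ⟨n, hn⟩ := exists_nat_gt c⁻¹
  have hn0 : 0 < n := by
    have h1 : (0 : ℝ) < n := (inv_pos.2 hc).trans hn
    exact_mod_cast h1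
  refine ⟨max A₁ n, lt_of_lt_of_le hA₁ (le_max_left _ _), ?_⟩
  intro k l D E hE hD θ θ' hθ hθ' α hα hQ hα0 hnd
  have hD0 : 0 < D := lt_of_lt_of_le Module.finrank_pos hD
  have hDB : 0 < D * B2 (k + l) := Nat.mul_pos hD0 (B2_pos _)
  have hDBR : (1 : ℝ) ≤ ((D * B2 (k + l) : ℕ) : ℝ) := by exact_mod_cast hDB
  by_cases hnd' : DivG (Γ ⊔ Γ₁) α
  · refine le_trans ?_ (hlarge α hnd' hnd)
    refine (lowc_anti hn0 hDB (le_max_right _ _)).trans ?_
    rw [lowc, inv_le_comm₀ (by positivity) hc]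
    have h1 : (1 : ℝ) ≤ ((D * B2 (k + l) : ℕ) : ℝ) ^ n := one_le_pow₀ hDBR
    have h2 : (0 : ℝ) < n := by exact_mod_cast hn0
    nlinarith
  · have h1 := hmain (fullField K Γ₁ P) (fullField_mono hKK' le_sup_right) k l D E hE hD θ θ'
      hθ hθ' α hα hQ hα0 hnd'
    have h3 : (orb (divF (Γ ⊔ Γ₁)) α).ncard = (minpoly (divF (Γ ⊔ Γ₁)) α).natDegree :=
      orb_ncard _ _
    have h4 : (0 : ℝ) < ((minpoly (divF (Γ ⊔ Γ₁)) α).natDegree : ℝ) := by
      rw [← h3]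
      exact_mod_cast orb_ncard_pos _ _
    rw [div_le_iff₀ h4, ← h3, mul_comm (ht α)] at h1
    refine (lowc_anti hA₁ hDB (le_max_left _ _)).trans (h1.trans ?_)
    refine mul_le_mul_of_nonneg_right ?_ (ht_nonneg α)
    exact_mod_cast Set.ncard_le_ncard (orb_mono (divF_mono le_sup_left) α) (orb_finite _ _)

/-- the same for the numbers with a relative norm in the class -/
theorem norm_case' (Γ Γ₁ : Subgroup Qbˣ) (hΓfg : Γ.FG) (hΓ₁ : Γ₁.FG) (K : GF)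
    (hKfd : FiniteDimensional ℚ K) (P : Finset ℕ) (hP : ∀ p ∈ P, p.Prime) : ∃ A : ℕ, 0 < A ∧
    ∀ (k l D : ℕ) (E : IntermediateField (fullField K Γ₁ P) Qb),
      FiniteDimensional (fullField K Γ₁ P) E → Module.finrank (fullField K Γ₁ P) E ≤ D →
      ∀ (θ : Fin k → Qb) (θ' : Fin l → Qb),
      (∀ j, ∃ m : ℕ, 0 < m ∧ θ j ^ m ∈ E) → (∀ j, ∃ m : ℕ, 0 < m ∧ θ' j ^ m ∈ E) →
      ∑ j, θ' j ≠ 0 → ∀ ξ : Qb, ξ ≠ 0 → ∀ F' : GF, divF Γ ≤ F' → F' ≤ divF Γ ⊔ adjoin ℚ {ξ} →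
      ((minpoly F' ξ).coeff 0 : Qb) = (∑ j, θ j) / ∑ j, θ' j →
      ¬ DivG Γ ((minpoly F' ξ).coeff 0 : Qb) →
      lowc A (D * B2 (k + l)) ≤ ((minpoly (divF Γ) ξ).natDegree : ℝ) * ht ξ := by
  obtain ⟨A, hA, hmain⟩ := main5 Γ Γ₁ hΓfg hΓ₁ K hKfd P hP
  refine ⟨A, hA, ?_⟩
  intro k l D E hE hD θ θ' hθ hθ' hQ ξ hξ F' h1 h2 hquot hnd
  set η := ((minpoly F' ξ).coeff 0 : Qb) with hη
  set s : Qb := (-1) ^ (orb_finite F' ξ).toFinset.card with hs
  have hs1 : s = 1 ∨ s = -1 := neg_one_pow_eq_or Qb _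
  have hsη : η = s * N F' ξ := coeff_zero_eq F' ξ
  have hN0 : N F' ξ ≠ 0 := N_ne_zero F' hξ
  have hs0 : s ≠ 0 := by rcases hs1 with h | h <;> rw [h] <;> norm_num
  have hη0 : η ≠ 0 := by rw [hsη]; exact mul_ne_zero hs0 hN0
  have hm := hmain k l D E hE hD θ θ' hθ hθ' η (by rw [hquot, div_mul_cancel₀ _ hQ]) hQ hη0 hnd
  have hstor : Tor s := tor_neg_one_pow _
  have hht : ht η = ht (N F' ξ) := by rw [hsη, ht_tor_mul hstor]
  have hsL : s ∈ divF Γ := divG_mem (tor_divG hstor)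
  have horb : (orb (divF Γ) η).ncard = (orb (divF Γ) (N F' ξ)).ncard := by
    have h3 : η = N F' ξ / s⁻¹ := by rw [hsη, div_inv_eq_mul, mul_comm]
    rw [h3, orb_div_ncard (inv_ne_zero hs0) (inv_mem hsL)]
  rw [hht, horb] at hm
  refine hm.trans ?_
  have hdeg := degree_mul_le h1 h2
  have hh := ht_N_le F' ξ
  rw [← orb_ncard]
  calc ((orb (divF Γ) (N F' ξ)).ncard : ℝ) * ht (N F' ξ)
      ≤ ((orb (divF Γ) (N F' ξ)).ncard : ℝ) * (((orb F' ξ).ncard : ℝ) * ht ξ) :=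
        mul_le_mul_of_nonneg_left hh (Nat.cast_nonneg _)
    _ = (((orb F' ξ).ncard * (orb (divF Γ) (N F' ξ)).ncard : ℕ) : ℝ) * ht ξ := by
        push_cast; ring
    _ ≤ ((orb (divF Γ) ξ).ncard : ℝ) * ht ξ :=
        mul_le_mul_of_nonneg_right (by exact_mod_cast hdeg) (ht_nonneg ξ)

end Pool.Agent.V5helper40.RRed
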